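import Mathlib

/-!
# MP_8b6d0b_co: a better lower bound for the second largest non-hitting index

Points and lines of `PG(2,q)` are both modelled by `ℙ K (Fin 3 → K)`; the point `p` lies on the
line `l` when the two coordinate vectors are orthogonal (Mathlib's projective plane over a field,
`Configuration.ofField`).
-/

open scoped LinearAlgebra.Projectivization
open Configuration.ofField Projectivization

namespace Pool.Agent.Results.MP_8b6d0b_co.LowerBoundPlusOne

/-- The number of lines missing the point set `S`. -/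
noncomputable def u0 {K : Type} [Field K] (S : Set (ℙ K (Fin 3 → K))) : ℕ :=
  Nat.card {l : ℙ K (Fin 3 → K) // ∀ p ∈ S, p ∉ l}

/-- The values `u_0(S) < q(q-1)/2` taken on `(q+1)`-sets. -/
def Values (K : Type) [Field K] : Set ℕ :=
  {n | n < Nat.card K * (Nat.card K - 1) / 2 ∧
    ∃ S : Set (ℙ K (Fin 3 → K)), S.ncard = Nat.card K + 1 ∧ u0 S = n}

/-- `U(q)`: the largest value of `u_0` below `q(q-1)/2` on `(q+1)`-sets. -/
noncomputable def U (K : Type) [Field K] : ℕ := sSup (Values K)

variable {K : Type} [Field K]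

/-- The point `(a : b : 1)`. -/
def aff (a b : K) : ℙ K (Fin 3 → K) :=
  Projectivization.mk K ![a, b, 1] (by
    intro h
    have := congrFun h 2
    simp at this)

/-- The point `(1 : 0 : 0)`. -/
def ptX : ℙ K (Fin 3 → K) :=
  Projectivization.mk K ![1, 0, 0] (by
    intro h
    have := congrFun h 0
    simp at this)

/-- The point `(0 : 1 : 0)`. -/
def ptY : ℙ K (Fin 3 → K) :=
  Projectivization.mk K ![0, 1, 0] (by
    intro h
    have := congrFun h 1
    simp at this)

/-- The line `m x - y + b = 0`. -/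
def ln (m b : K) : ℙ K (Fin 3 → K) :=
  Projectivization.mk K ![m, -1, b] (by
    intro h
    have := congrFun h 1
    simp at this)

/-- The hyperbola without `(1,1)`, with the origin added. -/
def S0 (K : Type) [Field K] : Set (ℙ K (Fin 3 → K)) :=
  (insert ptX (insert ptY (insert (aff 0 0) ((fun x : K => aff x x⁻¹) '' {x | x ≠ 0 ∧ x ≠ 1}))))

lemma aff_inj {a b c d : K} (h : aff a b = aff c d) : a = c ∧ b = d := by
  unfold aff at h
  rw [Projectivization.mk_eq_mk_iff'] at h
  obtain ⟨r, hr⟩ := h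
  have h0 := congrFun hr 0
  have h1 := congrFun hr 1
  have h2 := congrFun hr 2
  simp at h0 h1 h2
  subst h2
  simp at h0 h1
  exact ⟨h0.symm, h1.symm⟩

lemma ln_inj {a b c d : K} (h : ln a b = ln c d) : a = c ∧ b = d := by
  unfold ln at h
  rw [Projectivization.mk_eq_mk_iff'] at h
  obtain ⟨r, hr⟩ := h
  have h0 := congrFun hr 0
  have h1 := congrFun hr 1
  have h2 := congrFun hr 2
  simp at h0 h1 h2
  subst h1
  simp at h0 h2
  exact ⟨h0.symm, h2.symm⟩

lemma ptX_ne_ptY : (ptX : ℙ K (Fin 3 → K)) ≠ ptY := by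
  intro h
  unfold ptX ptY at h
  rw [Projectivization.mk_eq_mk_iff'] at h
  obtain ⟨r, hr⟩ := h
  have h0 := congrFun hr 0
  simp at h0

lemma ptX_ne_aff (a b : K) : ptX ≠ aff a b := by
  intro h
  unfold ptX aff at h
  rw [Projectivization.mk_eq_mk_iff'] at h
  obtain ⟨r, hr⟩ := h
  have h0 := congrFun hr 0
  have h2 := congrFun hr 2
  simp at h0 h2
  subst h2
  simp at h0

lemma ptY_ne_aff (a b : K) : ptY ≠ aff a b := by
  intro h
  unfold ptY aff at h
  rw [Projectivization.mk_eq_mk_iff'] at h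
  obtain ⟨r, hr⟩ := h
  have h0 := congrFun hr 1
  have h2 := congrFun hr 2
  simp at h0 h2
  subst h2
  simp at h0

lemma aff_mem_ln (a b m c : K) : aff a b ∈ ln m c ↔ a * m - b + c = 0 := by
  unfold aff ln
  rw [mem_iff, orthogonal_mk]
  simp [dotProduct, Fin.sum_univ_three, sub_eq_add_neg]

lemma ptX_mem_ln (m c : K) : ptX ∈ ln m c ↔ m = 0 := by
  unfold ptX ln
  rw [mem_iff, orthogonal_mk]
  simp [dotProduct, Fin.sum_univ_three]

lemma ptY_mem_ln (m c : K) : ptY ∉ ln m c := by
  unfold ptY ln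
  rw [mem_iff, orthogonal_mk]
  simp [dotProduct, Fin.sum_univ_three]

/-- A line not through `ptY` is of the form `ln m b`. -/
lemma exists_ln (l : ℙ K (Fin 3 → K)) (h : ptY ∉ l) : ∃ m b : K, l = ln m b := by
  induction l with | h v hv =>
  unfold ptY at h
  rw [mem_iff, orthogonal_mk] at h
  simp [dotProduct, Fin.sum_univ_three] at h
  refine ⟨- v 0 / v 1, - v 2 / v 1, ?_⟩
  unfold ln
  rw [Projectivization.mk_eq_mk_iff']
  refine ⟨- v 1, ?_⟩
  ext i
  fin_cases i
  · simp; field_simp
  · simp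
  · simp; field_simp

variable [Fintype K]

lemma ncard_S0 (hq : 5 ≤ Fintype.card K) : (S0 K).ncard = Nat.card K + 1 := by
  classical
  have hinj : Set.InjOn (fun x : K => aff x x⁻¹) {x | x ≠ 0 ∧ x ≠ 1} := by
    intro x _ y _ h
    exact (aff_inj h).1
  have h1 : ((fun x : K => aff x x⁻¹) '' {x | x ≠ 0 ∧ x ≠ 1}).ncard = Fintype.card K - 2 := by
    rw [Set.InjOn.ncard_image hinj]
    have : {x : K | x ≠ 0 ∧ x ≠ 1} = ((Finset.univ : Finset K) \ {0, 1} : Finset K) := by
      ext x
      simp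
    rw [this, Set.ncard_coe_finset, Finset.card_sdiff_of_subset (by simp)]
    rw [Finset.card_univ, Finset.card_pair (zero_ne_one)]
  have n1 : (aff 0 0 : ℙ K (Fin 3 → K)) ∉ ((fun x : K => aff x x⁻¹) '' {x | x ≠ 0 ∧ x ≠ 1}) := by
    rintro ⟨x, hx, h⟩
    exact hx.1 (aff_inj h).1
  have n2 : (ptY : ℙ K (Fin 3 → K)) ∉
      insert (aff 0 0) ((fun x : K => aff x x⁻¹) '' {x | x ≠ 0 ∧ x ≠ 1}) := by
    rw [Set.mem_insert_iff, not_or]
    refine ⟨ptY_ne_aff _ _, ?_⟩
    rintro ⟨x, hx, h⟩
    exact ptY_ne_aff _ _ h.symm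
  have n3 : (ptX : ℙ K (Fin 3 → K)) ∉
      insert ptY (insert (aff 0 0) ((fun x : K => aff x x⁻¹) '' {x | x ≠ 0 ∧ x ≠ 1})) := by
    rw [Set.mem_insert_iff, not_or, Set.mem_insert_iff, not_or]
    refine ⟨ptX_ne_ptY, ptX_ne_aff _ _, ?_⟩
    rintro ⟨x, hx, h⟩
    exact ptX_ne_aff _ _ h.symm
  unfold S0
  rw [Set.ncard_insert_of_notMem n3 (Set.toFinite _), Set.ncard_insert_of_notMem n2 (Set.toFinite _),
    Set.ncard_insert_of_notMem n1 (Set.toFinite _), h1, Nat.card_eq_fintype_card]
  omega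

/-- The parameters of the lines missing `S0`. -/
def T (K : Type) [Field K] : Set (K × K) :=
  insert ((-1 : K), (2 : K)) {p | p.2 ≠ 0 ∧ ¬ IsSquare (p.2 ^ 2 + 4 * p.1)}

lemma miss_iff (h2 : (2 : K) ≠ 0) (m b : K) :
    (∀ p ∈ S0 K, p ∉ ln m b) ↔ (m, b) ∈ T K := by
  have key : (∀ p ∈ S0 K, p ∉ ln m b) ↔
      (m ≠ 0 ∧ b ≠ 0 ∧ ∀ x : K, x ≠ 0 → x ≠ 1 → x * m - x⁻¹ + b ≠ 0) := by
    unfold S0
    simp only [Set.mem_insert_iff, Set.mem_image, Set.mem_ofPred_eq, forall_eq_or_imp,
      forall_exists_index, and_imp, ptX_mem_ln, aff_mem_ln]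
    constructor
    · rintro ⟨h1, -, h3, h4⟩
      refine ⟨h1, by simpa using h3, ?_⟩
      intro x hx0 hx1
      have := h4 _ x hx0 hx1 rfl
      rwa [aff_mem_ln] at this
    · rintro ⟨h1, h3, h4⟩
      refine ⟨h1, ptY_mem_ln _ _, by simpa using h3, ?_⟩
      rintro p x hx0 hx1 rfl
      rw [aff_mem_ln]
      exact h4 x hx0 hx1
  rw [key]
  unfold T
  simp only [Set.mem_insert_iff, Prod.mk.injEq, Set.mem_ofPred_eq]
  have h4 : (4 : K) ≠ 0 := by
    have : (4 : K) = 2 * 2 := by norm_num
    rw [this]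
    exact mul_ne_zero h2 h2
  constructor
  · rintro ⟨hm, hb, h⟩
    by_cases hs : IsSquare (b ^ 2 + 4 * m)
    · left
      obtain ⟨s, hs⟩ := hs
      -- roots (-b ± s)/(2m)
      have root : ∀ t : K, t ^ 2 = b ^ 2 + 4 * m → (-b + t) / (2 * m) = 1 := by
        intro t ht
        by_contra hne
        have hx0 : (-b + t) / (2 * m) ≠ 0 := by
          intro h0
          rw [div_eq_zero_iff] at h0
          rcases h0 with h0 | h0
          · have : t = b := by linear_combination h0
            subst this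
            have : 4 * m = 0 := by linear_combination - ht
            rcases mul_eq_zero.mp this with h | h
            · exact h4 h
            · exact hm h
          · exact (mul_ne_zero h2 hm) h0
        have := h _ hx0 hne
        apply this
        have hnum : (-b + t) ≠ 0 := by
          intro h0
          apply hx0
          rw [h0, zero_div]
        field_simp
        linear_combination ht
      have r1 := root s (by linear_combination -hs)
      have r2 := root (-s) (by linear_combination -hs)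
      have h2m : (2 * m) ≠ 0 := mul_ne_zero h2 hm
      rw [div_eq_one_iff_eq h2m] at r1 r2
      have hs0 : s = 0 := by
        have : 2 * s = 0 := by linear_combination r1 - r2
        rcases mul_eq_zero.mp this with h | h
        · exact absurd h h2
        · exact h
      subst hs0
      have hbm : b = -2 * m := by linear_combination -r1
      have : 4 * m * (m + 1) = 0 := by
        rw [hbm] at hs
        linear_combination hs
      have hm1 : m = -1 := by
        rcases mul_eq_zero.mp this with h | h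
        · exact absurd h (mul_ne_zero h4 hm)
        · linear_combination h
      refine ⟨hm1, ?_⟩
      rw [hbm, hm1]
      ring
    · right
      exact ⟨hb, hs⟩
  · rintro (⟨rfl, rfl⟩ | ⟨hb, hs⟩)
    · refine ⟨by simp, h2, ?_⟩
      intro x hx0 hx1 h
      apply hx1
      have : (x - 1) ^ 2 = 0 := by
        field_simp at h
        linear_combination -h
      have := pow_eq_zero_iff (two_ne_zero) |>.mp this
      linear_combination this
    · refine ⟨?_, hb, ?_⟩
      · rintro rfl
        apply hs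
        exact ⟨b, by ring⟩
      · intro x hx0 _ h
        apply hs
        refine ⟨2 * m * x + b, ?_⟩
        field_simp at h
        linear_combination (-4 * m) * h

lemma card_nonsq (h2 : ringChar K ≠ 2) :
    2 * {a : K | ¬ IsSquare a}.ncard + 1 = Fintype.card K := by
  classical
  have e : {a : K | ¬ IsSquare a} = ((Finset.univ.filter fun a : K => ¬ IsSquare a : Finset K) : Set K) := by
    ext a
    simp
  rw [e, Set.ncard_coe_finset]
  have h := quadraticChar_sum_zero (F := K) h2
  have hpt : ∀ a : K, (1 : ℤ) = 2 * (if ¬ IsSquare a then 1 else 0) + (if a = 0 then 1 else 0)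
      + quadraticChar K a := by
    intro a
    by_cases h0 : a = 0
    · subst h0
      simp
    · by_cases hs : IsSquare a
      · rw [(quadraticChar_one_iff_isSquare h0).mpr hs]
        simp [h0, hs]
      · rw [quadraticChar_neg_one_iff_not_isSquare.mpr hs]
        simp [h0, hs]
  have hsum : ∑ a : K, (1 : ℤ) = ∑ a : K, (2 * (if ¬ IsSquare a then 1 else 0) +
      (if a = 0 then 1 else 0) + quadraticChar K a) := by
    apply Finset.sum_congr rfl
    intro a _
    exact hpt a
  rw [Finset.sum_add_distrib, Finset.sum_add_distrib, h, ← Finset.mul_sum] at hsum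
  simp only [Finset.sum_const, Finset.card_univ, Finset.sum_ite_eq', Finset.mem_univ, if_true,
    Finset.sum_boole] at hsum
  simp at hsum
  have : (Fintype.card K : ℤ) = 2 * ((Finset.univ.filter fun a : K => ¬ IsSquare a).card : ℤ) + 1 := by
    simpa using hsum
  omega

lemma ncard_T (h2 : ringChar K ≠ 2) : 2 * (T K).ncard = (Fintype.card K - 1) ^ 2 + 2 := by
  classical
  have h2' : (2 : K) ≠ 0 := Ring.two_ne_zero h2
  have h4 : (4 : K) ≠ 0 := by
    have : (4 : K) = 2 * 2 := by norm_num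
    rw [this]
    exact mul_ne_zero h2' h2'
  have himg : {p : K × K | p.2 ≠ 0 ∧ ¬ IsSquare (p.2 ^ 2 + 4 * p.1)} =
      (fun p : K × K => ((p.2 - p.1 ^ 2) / 4, p.1)) '' ({b : K | b ≠ 0} ×ˢ {a : K | ¬ IsSquare a}) := by
    ext ⟨m, b⟩
    simp only [Set.mem_ofPred_eq, Set.mem_image, Set.mem_prod, Prod.exists, Prod.mk.injEq]
    constructor
    · rintro ⟨hb, hs⟩
      refine ⟨b, b ^ 2 + 4 * m, ⟨hb, hs⟩, ?_, rfl⟩
      field_simp
      ring
    · rintro ⟨b', a, ⟨hb, hs⟩, h1, rfl⟩
      refine ⟨hb, ?_⟩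
      rw [← h1]
      have : b' ^ 2 + 4 * ((a - b' ^ 2) / 4) = a := by
        field_simp
        ring
      rwa [this]
  have hinj : Function.Injective (fun p : K × K => ((p.2 - p.1 ^ 2) / 4, p.1)) := by
    rintro ⟨b, a⟩ ⟨b', a'⟩ h
    simp only [Prod.mk.injEq] at h
    obtain ⟨h1, rfl⟩ := h
    have : a = a' := by
      field_simp at h1
      linear_combination h1
    rw [this]
  have hc1 : {b : K | b ≠ 0}.ncard = Fintype.card K - 1 := by
    have : {b : K | b ≠ 0} = ((Finset.univ : Finset K) \ {0} : Finset K) := by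
      ext x
      simp
    rw [this, Set.ncard_coe_finset, Finset.card_sdiff_of_subset (by simp)]
    simp
  have hns := card_nonsq h2
  have hnot : ((-1 : K), (2 : K)) ∉ {p : K × K | p.2 ≠ 0 ∧ ¬ IsSquare (p.2 ^ 2 + 4 * p.1)} := by
    rintro ⟨_, h⟩
    apply h
    exact ⟨0, by norm_num⟩
  unfold T
  rw [Set.ncard_insert_of_notMem hnot (Set.toFinite _), himg,
    Set.ncard_image_of_injective _ hinj, Set.ncard_prod, hc1]
  have : Fintype.card K - 1 = 2 * {a : K | ¬ IsSquare a}.ncard := by omega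
  rw [this]
  ring

lemma u0_S0 (h2 : ringChar K ≠ 2) :
    2 * u0 (S0 K) = (Fintype.card K - 1) ^ 2 + 2 := by
  classical
  have h2' : (2 : K) ≠ 0 := Ring.two_ne_zero h2
  rw [← ncard_T h2]
  congr 1
  unfold u0
  rw [← Nat.card_coe_set_eq]
  symm
  refine Nat.card_congr (Equiv.ofBijective
    (fun p : T K => (⟨ln p.1.1 p.1.2, (miss_iff h2' _ _).mpr p.2⟩ :
      {l : ℙ K (Fin 3 → K) // ∀ p ∈ S0 K, p ∉ l})) ⟨?_, ?_⟩)
  · rintro ⟨⟨m, b⟩, h⟩ ⟨⟨m', b'⟩, h'⟩ he
    simp only [Subtype.mk.injEq] at he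
    obtain ⟨rfl, rfl⟩ := ln_inj he
    rfl
  · rintro ⟨l, hl⟩
    obtain ⟨m, b, rfl⟩ := exists_ln l (hl ptY (by unfold S0; simp))
    exact ⟨⟨(m, b), (miss_iff h2' _ _).mp hl⟩, rfl⟩

/-- **Lower bound.**  `U(q) ≥ (q-1)²/2 + 1` for every odd prime power `q ≥ 5`. -/
theorem lower (K : Type) [Field K] [Finite K] (hodd : Odd (Nat.card K))
    (hq : 5 ≤ Nat.card K) : (Nat.card K - 1) ^ 2 / 2 + 1 ≤ U K := by
  classical
  have := Fintype.ofFinite K
  have hodd' := hodd
  rw [Nat.card_eq_fintype_card] at hodd' hq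
  have hchar : ringChar K ≠ 2 := by
    intro h
    have := FiniteField.even_card_of_char_two h
    exact (Nat.not_even_iff_odd.mpr hodd') (Nat.even_iff.mpr this)
  have h1 := u0_S0 (K := K) hchar
  have h2 := ncard_S0 (K := K) hq
  obtain ⟨k, hk⟩ := hodd'
  have hu : u0 (S0 K) = 2 * k ^ 2 + 1 := by
    have : (Fintype.card K - 1) ^ 2 = 4 * k ^ 2 := by
      rw [hk]; simp; ring
    omega
  have hle : (Nat.card K - 1) ^ 2 / 2 + 1 = u0 (S0 K) := by
    rw [hu, Nat.card_eq_fintype_card, hk]
    have : (2 * k + 1 - 1) ^ 2 = 2 * (2 * k ^ 2) := by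
      simp; ring
    rw [this]
    simp
  have hlt : u0 (S0 K) < Nat.card K * (Nat.card K - 1) / 2 := by
    rw [hu, Nat.card_eq_fintype_card, hk]
    have h3 : (2 * k + 1) * (2 * k + 1 - 1) = 2 * (2 * k ^ 2 + k) := by
      simp; ring
    rw [h3, Nat.mul_div_cancel_left _ (by norm_num)]
    omega
  rw [hle]
  unfold U
  apply le_csSup
  · exact ⟨Nat.card K * (Nat.card K - 1) / 2, fun n hn => hn.1.le⟩
  · exact ⟨hlt, S0 K, h2, rfl⟩

/-- `U(5) = 9`. -/
theorem five (K : Type) [Field K] [Finite K] (h5 : Nat.card K = 5) : U K = 9 := by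
  apply le_antisymm
  · unfold U
    apply csSup_le'
    rintro n ⟨hn, -⟩
    rw [h5] at hn
    norm_num at hn
    omega
  · have := lower K (by rw [h5]; decide) (by rw [h5])
    rw [h5] at this
    simpa using this

/-- `U(q) ≥ (q-1)²/2 + 1` for every finite field with `q ≥ 5` odd elements, and `U(5) = 9`. -/
theorem result : (∀ (K : Type) [Field K] [Finite K], Odd (Nat.card K) → 5 ≤ Nat.card K →
      (Nat.card K - 1) ^ 2 / 2 + 1 ≤ U K) ∧
    (∀ (K : Type) [Field K] [Finite K], Nat.card K = 5 → U K = 9) :=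
  ⟨fun K _ _ h1 h2 => lower K h1 h2, fun K _ _ h => five K h⟩

end Pool.Agent.Results.MP_8b6d0b_co.LowerBoundPlusOne
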